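import Pool.Agent.P.MP_daa8d5_co.An.Line

set_option autoImplicit false

namespace Pool.Agent.P.MP_daa8d5_co.An

open Finset

variable {ι F : Type} [AddCommGroup F] [Module ℝ F] {S : Sys ι F}

theorem exists_dis {p s : Fin 4} (h : p ≠ s) : ∃ q r, Dis p q r s := by
  revert p s
  unfold Dis
  decide

theorem conf (hk : ∀ i x, ∃ y ∈ S.X, S.cl y = i ∧ y ≠ x) {a0 : Fin 4 → ι} (h0 : S.Rb a0) :
    S.Conf := by
  choose σ φ h1 _ h3 h4 using fun j =>
    opt (S := S) j (fun x => x ∈ S.X) (fun _ hx => hx) h0 fun i _ => (h0 i).1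
  obtain ⟨e, he⟩ := dual h0 φ (fun j => (h3 j).1)
    fun j i hi => (h3 j).2 _ (h0 i).1 (by rw [(h0 i).2]; exact hi)
  let Φ : Frame S := ⟨φ, e, h3, he⟩
  by_cases hd : ∃ p q r s, Dis p q r s ∧ σ p q ≠ σ s q ∧ σ p r ≠ σ s r
  · obtain ⟨p, q, r, s, h, n1, n2⟩ := hd
    exact line (Φ := Φ) hk h (h1 p) (h1 s) (h4 p) (h4 s) n1 n2
  have hd' : ∀ p q r s, Dis p q r s → σ p q = σ s q ∨ σ p r = σ s r := by
    intro p q r s h
    by_contra hn
    push Not at hn
    exact hd ⟨p, q, r, s, h, hn⟩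
  have key : ∃ p q r s, Dis p q r s ∧ σ p s = σ q s ∧ σ p s = σ r s := by
    by_contra hn
    have t : ∀ p q r s, Dis p q r s → σ p s = σ q s → σ p s ≠ σ r s :=
      fun p q r s h e1 e2 => hn ⟨p, q, r, s, h, e1, e2⟩
    have t0 := t 1 2 3 0 (by unfold Dis; decide)
    have t1 := t 0 2 3 1 (by unfold Dis; decide)
    have t2 := t 0 1 3 2 (by unfold Dis; decide)
    have t3 := t 0 1 2 3 (by unfold Dis; decide)
    have u1 := hd' 0 2 3 1 (by unfold Dis; decide)
    have u2 := hd' 0 1 3 2 (by unfold Dis; decide)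
    have u3 := hd' 0 1 2 3 (by unfold Dis; decide)
    have u4 := hd' 1 0 3 2 (by unfold Dis; decide)
    have u5 := hd' 1 0 2 3 (by unfold Dis; decide)
    have u6 := hd' 2 0 1 3 (by unfold Dis; decide)
    grind
  obtain ⟨p, q, r, s, h, e1, e2⟩ := key
  refine conf2 (fun i => i = s) (α := S.V (σ p s)) (β := Φ.e p) ?_ (e_ne p) (h1 p) (h1 s)
    (inC_self (σ p) s) (e_tri (h1 s) h.2.2.1.symm (h4 s)) fun b hb _ _ => ⟨?_, Φ.e_in hb p⟩
  · intro hz
    have := Φ.pos (h1 p) s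
    rw [hz, map_zero] at this
    exact lt_irrefl _ this
  · refine lemM hb Φ.φ (fun j => (Φ.val j).1) (Φ.sgn hb) fun j => ?_
    rcases h.all j with rfl | rfl | rfl | rfl
    · exact (h4 j s h.2.2.1.symm).ge
    · rw [e1]; exact (h4 j s h.2.2.2.2.1.symm).ge
    · rw [e2]; exact (h4 j s h.2.2.2.2.2.symm).ge
    · exact (Φ.pos (h1 p) j).le

/-- `y` is in the cone of points of colour `n` -/
def Sys.Cn (S : Sys ι F) {m : ℕ} (col : ι → Fin m) (n : Fin m) (y : F) : Prop :=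
  ∃ (a : Fin 4 → ι) (J : Fin 4 → Prop), (∀ i, J i → a i ∈ S.X ∧ col (a i) = n) ∧ S.InC a J y

theorem asm {m : ℕ} (hcard : ∀ i, (S.X.filter fun x => S.cl x = i).card + 1 = m) (hC : S.Conf) :
    ∃ (col : ι → Fin m) (C D : Fin m) (α β : F), C ≠ D ∧ α ≠ 0 ∧ β ≠ 0 ∧ S.Cn col C α ∧
      S.Cn col D β ∧ ∀ n, n ≠ C → n ≠ D → S.Cn col n α ∧ S.Cn col n β := by
  classical
  obtain ⟨κ, _, miss, a, C, D, α, β, hCD, hα, hβ, ha, hinj, h1, h2, h3, h4⟩ := hC
  have hmem : ∀ n i, a n i ∈ S.X.filter fun x => S.cl x = i := fun n i => mem_filter.2 (ha n i)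
  have hκ : Fintype.card κ ≤ Fintype.card (Fin m) := by
    have e1 : (univ.erase (miss 0)).card ≤ (S.X.filter fun x => S.cl x = 0).card :=
      card_le_card_of_injOn (fun n => a n 0) (fun n _ => hmem n 0) fun n hn n' hn' e =>
        hinj 0 n n' (mem_erase.1 hn).1.symm (mem_erase.1 hn').1.symm e
    rw [card_erase_of_mem (mem_univ _), card_univ] at e1
    have := hcard 0
    rw [Fintype.card_fin]
    omega
  obtain ⟨emb⟩ := Function.Embedding.nonempty_of_card_le hκ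
  have hg : ∀ i, ∃ g : {n : Fin m // n ≠ emb (miss i)} ≃ (S.X.filter fun x => S.cl x = i),
      ∀ k (hk : emb k ≠ emb (miss i)), (g ⟨emb k, hk⟩ : ι) = a k i := by
    intro i
    let f : {n : Fin m // n ≠ emb (miss i)} → ι := fun n =>
      if h : ∃ k, emb k = n.1 then a h.choose i else a C i
    have hf : ∀ k (hk : emb k ≠ emb (miss i)), f ⟨emb k, hk⟩ = a k i := by
      intro k hk
      have h : ∃ k', emb k' = emb k := ⟨k, rfl⟩
      simp only [f, dif_pos h]
      rw [emb.injective h.choose_spec]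
    obtain ⟨g, hg⟩ := Set.MapsTo.exists_equiv_extend_of_card_eq
      (α := {n : Fin m // n ≠ emb (miss i)}) (t := S.X.filter fun x => S.cl x = i)
      (by rw [Fintype.card_subtype_compl, Fintype.card_fin, Fintype.card_unique]
          have := hcard i
          omega)
      (s := {n | ∃ k, emb k = n.1}) (f := f)
      (by rintro ⟨n, hn⟩ ⟨k, rfl⟩
          rw [hf]
          exact hmem k i)
      (by rintro ⟨n, hn⟩ ⟨k, rfl⟩ ⟨n', hn'⟩ ⟨k', rfl⟩ e
          rw [hf, hf] at e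
          have := hinj i k k' (fun e => hn (by rw [e])) (fun e => hn' (by rw [e])) e
          subst this
          rfl)
    exact ⟨g, fun k hk => (hg _ ⟨k, rfl⟩).trans (hf k hk)⟩
  choose g hg using hg
  let col : ι → Fin m := fun x =>
    if h : x ∈ S.X then ((g (S.cl x)).symm ⟨x, mem_filter.2 ⟨h, rfl⟩⟩).1 else emb C
  have hcol : ∀ i n, col (g i n) = n.1 := by
    intro i n
    obtain ⟨e1, e2⟩ := mem_filter.1 (g i n).2
    have : ∀ x (hx : x ∈ S.X) (e : S.cl x = i),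
        col x = ((g i).symm ⟨x, mem_filter.2 ⟨hx, e⟩⟩).1 := by
      intro x hx e
      subst e
      simp only [col, dif_pos hx]
    rw [this _ e1 e2]
    simp
  have hsp : ∀ k y, S.InC (a k) (fun i => miss i ≠ k) y → S.Cn col (emb k) y := by
    intro k y hy
    refine ⟨a k, _, fun i hi => ⟨(ha k i).1, ?_⟩, hy⟩
    rw [← hg i k fun e => hi (emb.injective e).symm, hcol]
  refine ⟨col, emb C, emb D, α, β, fun e => hCD (emb.injective e), hα, hβ, hsp C α h1,
    hsp D β h2, fun n hn hn' => ?_⟩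
  by_cases h : ∃ k, emb k = n
  · obtain ⟨k, rfl⟩ := h
    obtain ⟨e1, e2⟩ := h3 k (fun e => hn (by rw [e])) fun e => hn' (by rw [e])
    exact ⟨hsp k α e1, hsp k β e2⟩
  · let b : Fin 4 → ι := fun i => g i ⟨n, fun e => h ⟨_, e.symm⟩⟩
    have hb : S.Rb b := fun i => mem_filter.1 (g i _).2
    obtain ⟨e1, e2⟩ := h4 b hb fun i k hk e => by
      rw [← hg i k fun e => hk (emb.injective e).symm] at e
      have := congrArg Subtype.val ((g i).injective (Subtype.ext e))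
      exact h ⟨k, this.symm⟩
    exact ⟨⟨b, _, fun i _ => ⟨(hb i).1, hcol i _⟩, e1⟩, ⟨b, _, fun i _ => ⟨(hb i).1, hcol i _⟩, e2⟩⟩

end Pool.Agent.P.MP_daa8d5_co.An
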