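import Mathlib

set_option autoImplicit false

namespace Pool.Agent.P.MP_daa8d5_co.An

open Finset

/-- Four classes of vectors; every rainbow choice is a basis with `o` in its open cone. -/
structure Sys (ι F : Type) [AddCommGroup F] [Module ℝ F] where
  X : Finset ι
  cl : ι → Fin 4
  V : ι → F
  o : F
  bas : ∀ a : Fin 4 → ι, (∀ i, a i ∈ X ∧ cl (a i) = i) →
    ∃ B : Module.Basis (Fin 4) ℝ F, (∀ i, B i = V (a i)) ∧ ∀ i, 0 < B.repr o i

variable {ι F : Type} [AddCommGroup F] [Module ℝ F] (S : Sys ι F)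

/-- rainbow choice -/
def Sys.Rb (a : Fin 4 → ι) : Prop := ∀ i, a i ∈ S.X ∧ S.cl (a i) = i

/-- `y` is in the cone of the vectors `a i`, `J i`. -/
def Sys.InC (a : Fin 4 → ι) (J : Fin 4 → Prop) (y : F) : Prop :=
  ∃ c : Fin 4 → ℝ, (∀ i, 0 ≤ c i) ∧ (∀ i, ¬ J i → c i = 0) ∧ y = ∑ i, c i • S.V (a i)

/-- `φ` is positive at `o` and nonpositive on the points of the pool outside class `j`. -/
def Sys.Valid (j : Fin 4) (P : ι → Prop) (φ : F →ₗ[ℝ] ℝ) : Prop :=
  0 < φ S.o ∧ ∀ x, P x → S.cl x ≠ j → φ (S.V x) ≤ 0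

variable {S}

theorem InC.mono {a : Fin 4 → ι} {J J' : Fin 4 → Prop} {y : F} (h : S.InC a J y)
    (hJ : ∀ i, J i → J' i) : S.InC a J' y := by
  obtain ⟨c, h0, h1, h2⟩ := h
  exact ⟨c, h0, fun i hi => h1 i fun h => hi (hJ i h), h2⟩

theorem InC.congr {a b : Fin 4 → ι} {J : Fin 4 → Prop} {y : F} (h : S.InC a J y)
    (hab : ∀ i, J i → a i = b i) : S.InC b J y := by
  obtain ⟨c, h0, h1, h2⟩ := h
  refine ⟨c, h0, h1, h2.trans (sum_congr rfl fun i _ => ?_)⟩
  by_cases hi : J i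
  · rw [hab i hi]
  · simp [h1 i hi]

theorem repr_eq {a : Fin 4 → ι} {B : Module.Basis (Fin 4) ℝ F} (hB : ∀ i, B i = S.V (a i))
    (y : F) : y = ∑ i, B.repr y i • S.V (a i) := by
  conv_lhs => rw [← B.sum_repr y]
  exact sum_congr rfl fun i _ => by rw [hB]

theorem app_sum (φ : F →ₗ[ℝ] ℝ) (c : Fin 4 → ℝ) (a : Fin 4 → ι) :
    φ (∑ i, c i • S.V (a i)) = ∑ i, c i * φ (S.V (a i)) := by
  simp [map_sum]

/-- Lemma M. -/
theorem lemM {a : Fin 4 → ι} (ha : S.Rb a) (φ : Fin 4 → F →ₗ[ℝ] ℝ) (ho : ∀ j, 0 < φ j S.o)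
    (hs : ∀ j i, i ≠ j → φ j (S.V (a i)) ≤ 0) {y : F} (hy : ∀ j, 0 ≤ φ j y) :
    S.InC a (fun _ => True) y := by
  obtain ⟨B, hB, hw⟩ := S.bas a ha
  refine ⟨fun i => B.repr y i, ?_, fun i hi => (hi trivial).elim, repr_eq hB y⟩
  obtain ⟨i, -, hi⟩ := exists_min_image univ (fun i => B.repr y i / B.repr S.o i) univ_nonempty
  by_contra hn
  push Not at hn
  obtain ⟨k, hk⟩ := hn
  set t := B.repr y i / B.repr S.o i with ht
  have ht0 : t < 0 := lt_of_le_of_lt (hi k (mem_univ _)) (div_neg_of_neg_of_pos hk (hw k))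
  have h1 : φ i y - t * φ i S.o = ∑ l, (B.repr y l - t * B.repr S.o l) * φ i (S.V (a l)) := by
    conv_lhs => rw [repr_eq hB y, repr_eq hB S.o, app_sum, app_sum]
    rw [mul_sum, ← sum_sub_distrib]
    exact sum_congr rfl fun l _ => by ring
  have h2 : ∑ l, (B.repr y l - t * B.repr S.o l) * φ i (S.V (a l)) ≤ 0 := by
    refine sum_nonpos fun l _ => ?_
    by_cases hl : l = i
    · subst hl
      have : B.repr y l - t * B.repr S.o l = 0 := by
        rw [ht, div_mul_cancel₀ _ (hw l).ne', sub_self]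
      rw [this, zero_mul]
    · refine mul_nonpos_of_nonneg_of_nonpos ?_ (hs i l hl)
      have := hi l (mem_univ _)
      rw [le_div_iff₀ (hw l)] at this
      linarith
  have := hy i
  have := mul_pos (neg_pos.2 ht0) (ho i)
  linarith

theorem own_pos {a : Fin 4 → ι} (ha : S.Rb a) {φ : F →ₗ[ℝ] ℝ} {j : Fin 4} (ho : 0 < φ S.o)
    (hs : ∀ i, i ≠ j → φ (S.V (a i)) ≤ 0) : 0 < φ (S.V (a j)) := by
  obtain ⟨B, hB, hw⟩ := S.bas a ha
  by_contra hn
  push Not at hn
  have : φ S.o ≤ 0 := by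
    rw [repr_eq hB S.o, app_sum]
    refine sum_nonpos fun l _ => mul_nonpos_of_nonneg_of_nonpos (hw l).le ?_
    by_cases hl : l = j
    · rw [hl]; exact hn
    · exact hs l hl
  linarith

/-- a functional vanishing on all the vectors but one removes that vector -/
theorem InC.drop {a : Fin 4 → ι} {J : Fin 4 → Prop} {y : F} (h : S.InC a J y) {φ : F →ₗ[ℝ] ℝ}
    {j : Fin 4} (hj : φ (S.V (a j)) ≠ 0) (hs : ∀ i, J i → i ≠ j → φ (S.V (a i)) = 0)
    (hy : φ y = 0) : S.InC a (fun i => J i ∧ i ≠ j) y := by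
  obtain ⟨c, h0, h1, h2⟩ := h
  refine ⟨c, h0, fun i hi => ?_, h2⟩
  by_cases hJ : J i
  · have hij : i = j := by
      by_contra hne
      exact hi ⟨hJ, hne⟩
    subst hij
    rw [h2, app_sum, sum_eq_single i] at hy
    · exact (mul_eq_zero.1 hy).resolve_right hj
    · intro l _ hl
      by_cases hJl : J l
      · rw [hs l hJl hl, mul_zero]
      · rw [h1 l hJl, zero_mul]
    · intro h; exact (h (mem_univ _)).elim
  · exact h1 i hJ

/-- optimal facets -/
theorem opt (j : Fin 4) (P : ι → Prop) (hP : ∀ x, P x → x ∈ S.X) {a0 : Fin 4 → ι} (h0 : S.Rb a0)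
    (hP0 : ∀ i, i ≠ j → P (a0 i)) :
    ∃ (τ : Fin 4 → ι) (ψ : F →ₗ[ℝ] ℝ), S.Rb τ ∧ (∀ i, i ≠ j → P (τ i)) ∧ S.Valid j P ψ ∧
      ∀ i, i ≠ j → ψ (S.V (τ i)) = 0 := by
  classical
  let A : Finset (Fin 4 → ι) := (Fintype.piFinset fun _ => S.X).filter
    fun a => S.Rb a ∧ a j = a0 j ∧ ∀ i, i ≠ j → P (a i)
  have hA : ∀ a, a ∈ A ↔ S.Rb a ∧ a j = a0 j ∧ ∀ i, i ≠ j → P (a i) := by
    intro a
    simp only [A, mem_filter, Fintype.mem_piFinset]
    exact ⟨fun h => h.2, fun h => ⟨fun i => (h.1 i).1, h⟩⟩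
  let w : (Fin 4 → ι) → ℝ := fun a =>
    if h : S.Rb a then (S.bas a h).choose.repr S.o j else 0
  obtain ⟨τ, hτ, hmin⟩ := exists_min_image A w ⟨a0, (hA _).2 ⟨h0, rfl, hP0⟩⟩
  obtain ⟨h1, h2, h3⟩ := (hA _).1 hτ
  obtain ⟨hB, hw⟩ := (S.bas τ h1).choose_spec
  set B := (S.bas τ h1).choose with hBdef
  have hwτ : w τ = B.repr S.o j := by simp only [w, dif_pos h1, hBdef]
  have hz : ∀ i, i ≠ j → B.coord j (S.V (τ i)) = 0 := by
    intro i hi
    rw [← hB, Module.Basis.coord_apply, B.repr_self, Finsupp.single_eq_of_ne hi.symm]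
  have ho : B.coord j (S.V (τ j)) = 1 := by
    rw [← hB, Module.Basis.coord_apply, B.repr_self, Finsupp.single_eq_same]
  refine ⟨τ, B.coord j, h1, h3, ⟨hw j, fun x hx hxj => ?_⟩, hz⟩
  by_contra hn
  push Not at hn
  let τ' := Function.update τ (S.cl x) x
  have g1 : S.Rb τ' := by
    intro i
    by_cases hi : i = S.cl x
    · subst hi
      simp only [τ', Function.update_self]
      exact ⟨hP x hx, trivial⟩
    · simp only [τ', Function.update_of_ne hi]
      exact h1 i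
  have g2 : τ' j = τ j := Function.update_of_ne hxj.symm _ _
  have g3 : τ' ∈ A := by
    refine (hA _).2 ⟨g1, g2.trans h2, fun i hi => ?_⟩
    by_cases hi' : i = S.cl x
    · subst hi'
      simpa only [τ', Function.update_self] using hx
    · simpa only [τ', Function.update_of_ne hi'] using h3 i hi
  obtain ⟨hB', hw'⟩ := (S.bas τ' g1).choose_spec
  set B' := (S.bas τ' g1).choose with hB'def
  have hwτ' : w τ' = B'.repr S.o j := by simp only [w, dif_pos g1, hB'def]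
  have e1 := hmin τ' g3
  rw [hwτ, hwτ'] at e1
  have e2 : B.coord j S.o = B'.repr S.o j + B'.repr S.o (S.cl x) * B.coord j (S.V x) := by
    conv_lhs => rw [repr_eq hB' S.o, app_sum]
    rw [← add_sum_erase _ _ (mem_univ j), g2, ho, mul_one,
      sum_eq_single_of_mem (S.cl x) (mem_erase.2 ⟨hxj, mem_univ _⟩)]
    · simp only [τ', Function.update_self]
    · intro l hl hlx
      simp only [τ', Function.update_of_ne hlx]
      rw [hz l (mem_erase.1 hl).1, mul_zero]
  rw [Module.Basis.coord_apply] at e2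
  have := mul_pos (hw' (S.cl x)) hn
  linarith

/-- dual vectors -/
theorem dual {a : Fin 4 → ι} (ha : S.Rb a) (φ : Fin 4 → F →ₗ[ℝ] ℝ) (ho : ∀ j, 0 < φ j S.o)
    (hs : ∀ j i, i ≠ j → φ j (S.V (a i)) ≤ 0) :
    ∃ e : Fin 4 → F, ∀ j k, φ j (e k) = if j = k then 1 else 0 := by
  obtain ⟨B, hB, hw⟩ := S.bas a ha
  have : FiniteDimensional ℝ F := Module.Finite.of_basis B
  have hinj : Function.Injective (LinearMap.pi φ) := by
    rw [← LinearMap.ker_eq_bot, LinearMap.ker_eq_bot']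
    intro y hy
    have h0 : ∀ j, φ j y = 0 := fun j => congrFun hy j
    obtain ⟨c, c0, -, c1⟩ := lemM ha φ ho hs (y := y) fun j => (h0 j).ge
    obtain ⟨d, d0, -, d1⟩ := lemM ha φ ho hs (y := -y) fun j => by rw [map_neg, h0, neg_zero]
    have hsum : ∑ i, (c i + d i) • B i = 0 := by
      simp only [add_smul, sum_add_distrib, hB]
      rw [← c1, ← d1, add_neg_cancel]
    have hz := Fintype.linearIndependent_iff.1 B.linearIndependent _ hsum
    rw [c1]
    refine sum_eq_zero fun i _ => ?_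
    have : c i = 0 := by linarith [hz i, c0 i, d0 i]
    rw [this, zero_smul]
  have hsurj : Function.Surjective (LinearMap.pi φ) := by
    refine (LinearMap.injective_iff_surjective_of_finrank_eq_finrank ?_).1 hinj
    rw [Module.finrank_eq_card_basis B]
    simp
  choose e he using fun k : Fin 4 => hsurj fun j => if j = k then 1 else 0
  exact ⟨e, fun j k => congrFun (he k) j⟩

end Pool.Agent.P.MP_daa8d5_co.An
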