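import Pool.Agent.P.MP_daa8d5_co.An.Base

set_option autoImplicit false

namespace Pool.Agent.P.MP_daa8d5_co.An

open Finset

variable {ι F : Type} [AddCommGroup F] [Module ℝ F] {S : Sys ι F}

/-- Special parts `a n` (on the classes `i` with `miss i ≠ n`), two of them `C`, `D`; the other
special parts and all rainbow choices from the remaining points contain `α` and `β`. -/
def Sys.Conf (S : Sys ι F) : Prop :=
  ∃ (κ : Type) (_ : Fintype κ) (miss : Fin 4 → κ) (a : κ → Fin 4 → ι) (C D : κ) (α β : F),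
    C ≠ D ∧ α ≠ 0 ∧ β ≠ 0 ∧ (∀ n, S.Rb (a n)) ∧
    (∀ i n n', miss i ≠ n → miss i ≠ n' → a n i = a n' i → n = n') ∧
    S.InC (a C) (fun i => miss i ≠ C) α ∧ S.InC (a D) (fun i => miss i ≠ D) β ∧
    (∀ n, n ≠ C → n ≠ D →
      S.InC (a n) (fun i => miss i ≠ n) α ∧ S.InC (a n) (fun i => miss i ≠ n) β) ∧
    ∀ b, S.Rb b → (∀ i n, miss i ≠ n → b i ≠ a n i) →
      S.InC b (fun _ => True) α ∧ S.InC b (fun _ => True) β

/-- four distinct indices -/
def Dis (p q r s : Fin 4) : Prop := p ≠ q ∧ p ≠ r ∧ p ≠ s ∧ q ≠ r ∧ q ≠ s ∧ r ≠ s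

theorem Dis.all {p q r s : Fin 4} (h : Dis p q r s) (i : Fin 4) :
    i = p ∨ i = q ∨ i = r ∨ i = s := by
  simp only [Dis, Ne, Fin.ext_iff] at h ⊢
  omega

theorem Dis.ps {p q r s : Fin 4} (h : Dis p q r s) : Dis s q r p := by
  obtain ⟨h1, h2, h3, h4, h5, h6⟩ := h
  exact ⟨h5.symm, h6.symm, h3.symm, h4, h1.symm, h2.symm⟩

theorem Dis.qr {p q r s : Fin 4} (h : Dis p q r s) : Dis p r q s := by
  obtain ⟨h1, h2, h3, h4, h5, h6⟩ := h
  exact ⟨h2, h1, h3, h4.symm, h6, h5⟩

theorem conf2 (J : Fin 4 → Prop) {c d : Fin 4 → ι} {α β : F} (hα : α ≠ 0) (hβ : β ≠ 0)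
    (hc : S.Rb c) (hd : S.Rb d) (h1 : S.InC c J α) (h2 : S.InC d (fun i => ¬ J i) β)
    (hR : ∀ b, S.Rb b → (∀ i, J i → b i ≠ c i) → (∀ i, ¬ J i → b i ≠ d i) →
      S.InC b (fun _ => True) α ∧ S.InC b (fun _ => True) β) : S.Conf := by
  classical
  refine ⟨Bool, inferInstance, fun i => decide (J i), fun n => if n then d else c, false, true,
    α, β, by simp, hα, hβ, ?_, ?_, ?_, ?_, ?_, ?_⟩
  · intro n; cases n <;> simpa
  · intro i n n' h h' _
    cases n <;> cases n' <;> simp_all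
  · exact InC.mono h1 fun i hi => by simpa
  · exact InC.mono h2 fun i hi => by simpa
  · intro n h h'; cases n <;> simp_all
  · intro b hb h
    exact hR b hb (fun i hi => by simpa using h i false (by simpa))
      fun i hi => by simpa using h i true (by simpa)

theorem conf3 {p q r s : Fin 4} (h : Dis p q r s) {P E D : Fin 4 → ι} {α β : F} (hα : α ≠ 0)
    (hβ : β ≠ 0) (hP : S.Rb P) (hE : S.Rb E) (hD : S.Rb D) (n1 : P q ≠ E q) (n2 : D p ≠ E p)
    (n3 : D r ≠ P r) (n4 : D s ≠ P s) (h1 : S.InC E (fun i => i = q ∨ i = p) α)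
    (h2 : S.InC D (fun i => i ≠ q) β) (h3 : S.InC P (fun i => i ≠ p) α)
    (h4 : S.InC P (fun i => i ≠ p) β)
    (hR : ∀ b, S.Rb b → (∀ i, i ≠ p → b i ≠ P i) → b q ≠ E q → b p ≠ E p →
      (∀ i, i ≠ q → b i ≠ D i) → S.InC b (fun _ => True) α ∧ S.InC b (fun _ => True) β) :
    S.Conf := by
  have hall := h.all
  obtain ⟨d1, d2, d3, d4, d5, d6⟩ := h
  refine ⟨Fin 3, inferInstance, fun i => if i = p then 0 else if i = q then 1 else 2,
    ![P, D, E], 2, 1, α, β, by simp, hα, hβ, ?_, ?_, ?_, ?_, ?_, ?_⟩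
  · intro n; fin_cases n <;> simpa
  · have k1 : ∀ i, i ≠ p → i ≠ q → D i ≠ P i := by
      intro i e e'
      rcases hall i with rfl | rfl | rfl | rfl
      · exact (e rfl).elim
      · exact (e' rfl).elim
      · exact n3
      · exact n4
    intro i n n'
    by_cases e1 : i = p
    · subst e1
      simp only [if_true]
      fin_cases n <;> fin_cases n' <;> simp [n2, n2.symm]
    by_cases e2 : i = q
    · subst e2
      simp only [if_neg e1, if_true]
      fin_cases n <;> fin_cases n' <;> simp [n1, n1.symm]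
    · simp only [if_neg e1, if_neg e2]
      fin_cases n <;> fin_cases n' <;> simp [k1 i e1 e2, (k1 i e1 e2).symm]
  · refine InC.mono h1 fun i hi => ?_
    rcases hi with rfl | rfl <;> simp [d1.symm]
  · refine InC.mono h2 fun i hi => ?_
    by_cases e : i = p <;> simp [e, hi]
  · intro n e e'
    have hn : n = 0 := by fin_cases n <;> simp_all
    subst hn
    have : ∀ i, i ≠ p → (if i = p then (0 : Fin 3) else if i = q then 1 else 2) ≠ 0 := by
      intro i hi
      by_cases e : i = q <;> simp [e, hi, d1.symm]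
    exact ⟨InC.mono h3 this, InC.mono h4 this⟩
  · intro b hb e
    refine hR b hb (fun i hi => ?_) ?_ ?_ fun i hi => ?_
    · refine e i 0 ?_
      by_cases e : i = q <;> simp [e, hi, d1.symm]
    · exact e q 2 (by simp [d1.symm])
    · exact e p 2 (by simp)
    · refine e i 1 ?_
      by_cases e : i = p <;> simp [e, hi]

theorem conf4 {p q r s : Fin 4} (h : Dis p q r s) {P T C D : Fin 4 → ι} {α β : F} (hα : α ≠ 0)
    (hβ : β ≠ 0) (hP : S.Rb P) (hT : S.Rb T) (hC : S.Rb C) (hD : S.Rb D) (n1 : P q ≠ T q)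
    (n2 : P r ≠ T r) (n3 : ∀ i, i ≠ r → i ≠ p → C i ≠ P i) (n4 : ∀ i, i ≠ r → i ≠ s → C i ≠ T i)
    (n5 : ∀ i, i ≠ q → i ≠ p → D i ≠ P i) (n6 : ∀ i, i ≠ q → i ≠ s → D i ≠ T i)
    (n7 : ∀ i, i ≠ r → i ≠ q → C i ≠ D i) (h1 : S.InC C (fun i => i ≠ r) α)
    (h2 : S.InC D (fun i => i ≠ q) β) (h3 : S.InC P (fun i => i ≠ p) α)
    (h4 : S.InC P (fun i => i ≠ p) β) (h5 : S.InC T (fun i => i ≠ s) α)
    (h6 : S.InC T (fun i => i ≠ s) β)
    (hR : ∀ b, S.Rb b → (∀ i, i ≠ p → b i ≠ P i) → (∀ i, i ≠ s → b i ≠ T i) →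
      (∀ i, i ≠ r → b i ≠ C i) → (∀ i, i ≠ q → b i ≠ D i) →
      S.InC b (fun _ => True) α ∧ S.InC b (fun _ => True) β) : S.Conf := by
  have hall := h.all
  obtain ⟨d1, d2, d3, d4, d5, d6⟩ := h
  let a : Fin 4 → Fin 4 → ι := fun n =>
    if n = p then P else if n = s then T else if n = r then C else D
  have ap : a p = P := by simp [a]
  have as : a s = T := by simp [a, d3.symm]
  have ar : a r = C := by simp [a, d2.symm, d6]
  have aq : a q = D := by simp [a, d1.symm, d5, d4]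
  have n0 : ∀ i, i ≠ p → i ≠ s → P i ≠ T i := by
    intro i e e'
    rcases hall i with rfl | rfl | rfl | rfl
    · exact (e rfl).elim
    · exact n1
    · exact n2
    · exact (e' rfl).elim
  refine ⟨Fin 4, inferInstance, id, a, r, q, α, β, d4.symm, hα, hβ, ?_, ?_, ?_, ?_, ?_, ?_⟩
  · intro n
    rcases hall n with rfl | rfl | rfl | rfl <;> simp only [ap, as, ar, aq] <;> assumption
  · intro i n n' e e' e''
    simp only [id] at e e'
    rcases hall n with rfl | rfl | rfl | rfl <;> rcases hall n' with rfl | rfl | rfl | rfl <;>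
      simp only [ap, as, ar, aq] at e'' <;>
      first
      | rfl
      | exact (n0 i e e' e'').elim
      | exact (n0 i e' e e''.symm).elim
      | exact (n3 i e e' e'').elim
      | exact (n3 i e' e e''.symm).elim
      | exact (n4 i e e' e'').elim
      | exact (n4 i e' e e''.symm).elim
      | exact (n5 i e e' e'').elim
      | exact (n5 i e' e e''.symm).elim
      | exact (n6 i e e' e'').elim
      | exact (n6 i e' e e''.symm).elim
      | exact (n7 i e e' e'').elim
      | exact (n7 i e' e e''.symm).elim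
  · rw [ar]; exact h1
  · rw [aq]; exact h2
  · intro n e e'
    rcases hall n with rfl | rfl | rfl | rfl
    · rw [ap]; exact ⟨h3, h4⟩
    · exact (e' rfl).elim
    · exact (e rfl).elim
    · rw [as]; exact ⟨h5, h6⟩
  · intro b hb e
    exact hR b hb (fun i hi => ap ▸ e i p hi) (fun i hi => as ▸ e i s hi)
      (fun i hi => ar ▸ e i r hi) fun i hi => aq ▸ e i q hi

end Pool.Agent.P.MP_daa8d5_co.An
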