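import Pool.Agent.P.MP_daa8d5_co.An.Conf

set_option autoImplicit false

namespace Pool.Agent.P.MP_daa8d5_co.An

open Finset

variable {ι F : Type} [AddCommGroup F] [Module ℝ F] {S : Sys ι F}

/-- globally valid functionals with their dual vectors -/
structure Frame (S : Sys ι F) where
  φ : Fin 4 → F →ₗ[ℝ] ℝ
  e : Fin 4 → F
  val : ∀ j, S.Valid j (fun x => x ∈ S.X) (φ j)
  dual : ∀ j k, φ j (e k) = if j = k then 1 else 0

variable (Φ : Frame S)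

/-- the points of the line -/
def Frame.pt (q r : Fin 4) (θ : ℝ) : F := Φ.e q - θ • Φ.e r

theorem Sys.Rb.ne {a b : Fin 4 → ι} (ha : S.Rb a) (hb : S.Rb b) {i k : Fin 4} (h : i ≠ k) :
    a i ≠ b k := fun e => h (by rw [← (ha i).2, e, (hb k).2])

theorem Frame.sgn {a : Fin 4 → ι} (ha : S.Rb a) (j i : Fin 4) (h : i ≠ j) :
    Φ.φ j (S.V (a i)) ≤ 0 := (Φ.val j).2 _ (ha i).1 (by rw [(ha i).2]; exact h)

theorem Frame.pos {a : Fin 4 → ι} (ha : S.Rb a) (j : Fin 4) : 0 < Φ.φ j (S.V (a j)) :=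
  own_pos ha (Φ.val j).1 fun i hi => Φ.sgn ha j i hi

theorem Frame.e_in {a : Fin 4 → ι} (ha : S.Rb a) (k : Fin 4) :
    S.InC a (fun _ => True) (Φ.e k) :=
  lemM ha Φ.φ (fun j => (Φ.val j).1) (Φ.sgn ha) fun j => by
    rw [Φ.dual]; split_ifs <;> norm_num

theorem Frame.pt_app {q r : Fin 4} (θ : ℝ) {j : Fin 4} (hj : j ≠ r) :
    Φ.φ j (Φ.pt q r θ) = if j = q then 1 else 0 := by
  simp [Frame.pt, Φ.dual, hj]

theorem Frame.pt_ne {q r : Fin 4} (h : q ≠ r) (θ : ℝ) : Φ.pt q r θ ≠ 0 := by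
  intro h0
  have := Φ.pt_app (q := q) θ h
  rw [h0] at this
  simp at this

/-- `τ` is the optimal triangle of the pool `P` missing class `r`; its plane `ψ` cuts the line
at `pt q r l`. -/
def Frame.Lf (q r : Fin 4) (P : ι → Prop) (τ : Fin 4 → ι) (ψ : F →ₗ[ℝ] ℝ) (l : ℝ) : Prop :=
  S.Rb τ ∧ (∀ i, i ≠ r → P (τ i)) ∧ S.Valid r P ψ ∧ (∀ i, i ≠ r → ψ (S.V (τ i)) = 0) ∧
    0 < ψ (Φ.e r) ∧ ψ (Φ.e q) = l * ψ (Φ.e r)

theorem Frame.lf (q r : Fin 4) (P : ι → Prop) (hP : ∀ x, P x → x ∈ S.X) {a0 : Fin 4 → ι}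
    (h0 : S.Rb a0) (hP0 : ∀ i, i ≠ r → P (a0 i)) : ∃ τ ψ l, Φ.Lf q r P τ ψ l := by
  obtain ⟨τ, ψ, h1, h2, h3, h4⟩ := opt r P hP h0 hP0
  have hpos : 0 < ψ (Φ.e r) := by
    obtain ⟨c, c0, -, c1⟩ := Φ.e_in h1 r
    have e1 : ψ (Φ.e r) = c r * ψ (S.V (τ r)) := by
      rw [c1, app_sum, sum_eq_single r]
      · intro l _ hl; rw [h4 l hl, mul_zero]
      · intro h; exact (h (mem_univ _)).elim
    have e2 : 0 < ψ (S.V (τ r)) := own_pos h1 h3.1 fun i hi => (h4 i hi).le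
    have e3 : c r ≠ 0 := by
      intro hc
      have e4 : Φ.φ r (Φ.e r) ≤ 0 := by
        rw [c1, app_sum]
        refine sum_nonpos fun l _ => ?_
        by_cases hl : l = r
        · rw [hl, hc, zero_mul]
        · exact mul_nonpos_of_nonneg_of_nonpos (c0 l) (Φ.sgn h1 r l hl)
      rw [Φ.dual, if_pos rfl] at e4
      linarith
    rw [e1]
    exact mul_pos (lt_of_le_of_ne (c0 r) e3.symm) e2
  exact ⟨τ, ψ, ψ (Φ.e q) / ψ (Φ.e r), h1, h2, h3, h4, hpos, (div_mul_cancel₀ _ hpos.ne').symm⟩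

variable {Φ}

theorem Frame.Lf.app {q r : Fin 4} {P : ι → Prop} {τ : Fin 4 → ι} {ψ : F →ₗ[ℝ] ℝ} {l : ℝ}
    (h : Φ.Lf q r P τ ψ l) (θ : ℝ) : ψ (Φ.pt q r θ) = (l - θ) * ψ (Φ.e r) := by
  simp only [Frame.pt, map_sub, map_smul, smul_eq_mul, h.2.2.2.2.2]
  ring

/-- Lemma M with one functional replaced -/
theorem lemM1 {r : Fin 4} {P : ι → Prop} {ψ : F →ₗ[ℝ] ℝ} (hψ : S.Valid r P ψ) {b : Fin 4 → ι}
    (hb : S.Rb b) (hP : ∀ i, i ≠ r → P (b i)) {y : F} (h1 : 0 ≤ ψ y)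
    (h2 : ∀ j, j ≠ r → 0 ≤ Φ.φ j y) : S.InC b (fun _ => True) y := by
  refine lemM hb (Function.update Φ.φ r ψ) (fun j => ?_) (fun j i hi => ?_) fun j => ?_
  all_goals
    by_cases hj : j = r
    · subst hj
      rw [Function.update_self]
      first
      | exact hψ.1
      | exact hψ.2 _ (hP i hi) (by rw [(hb i).2]; exact hi)
      | exact h1
    · rw [Function.update_of_ne hj]
      first
      | exact (Φ.val j).1
      | exact Φ.sgn hb j i hi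
      | exact h2 j hj

theorem Frame.Lf.inn {q r : Fin 4} {P : ι → Prop} {τ : Fin 4 → ι} {ψ : F →ₗ[ℝ] ℝ} {l : ℝ}
    (h : Φ.Lf q r P τ ψ l) {θ : ℝ} (hθ : θ ≤ l) {b : Fin 4 → ι} (hb : S.Rb b)
    (hP : ∀ i, i ≠ r → P (b i)) : S.InC b (fun _ => True) (Φ.pt q r θ) := by
  refine lemM1 (Φ := Φ) h.2.2.1 hb hP ?_ fun j hj => ?_
  · rw [h.app]
    exact mul_nonneg (sub_nonneg.2 hθ) h.2.2.2.2.1.le
  · rw [Φ.pt_app θ hj]
    split_ifs <;> norm_num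

theorem Frame.Lf.on {q r : Fin 4} {P : ι → Prop} {τ : Fin 4 → ι} {ψ : F →ₗ[ℝ] ℝ} {l : ℝ}
    (h : Φ.Lf q r P τ ψ l) : S.InC τ (fun i => i ≠ r) (Φ.pt q r l) := by
  have h1 := h.inn le_rfl h.1 h.2.1
  have h2 : 0 < ψ (S.V (τ r)) := own_pos h.1 h.2.2.1.1 fun i hi => (h.2.2.2.1 i hi).le
  exact InC.mono (InC.drop h1 (φ := ψ) (j := r) h2.ne' (fun i _ hi => h.2.2.2.1 i hi)
    (by rw [h.app, sub_self, zero_mul])) fun i hi => hi.2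

theorem Frame.left_or (Φ : Frame S) (q r : Fin 4) (P : ι → Prop) (hP : ∀ x, P x → x ∈ S.X)
    (θ : ℝ) : (∃ τ ψ l, Φ.Lf q r P τ ψ l ∧ l ≤ θ) ∨
      ∀ b, S.Rb b → (∀ i, i ≠ r → P (b i)) → S.InC b (fun _ => True) (Φ.pt q r θ) := by
  by_cases h : ∃ a0, S.Rb a0 ∧ ∀ i, i ≠ r → P (a0 i)
  · obtain ⟨a0, h0, h1⟩ := h
    obtain ⟨τ, ψ, l, hl⟩ := Φ.lf q r P hP h0 h1
    rcases le_total l θ with h2 | h2
    · exact Or.inl ⟨τ, ψ, l, hl, h2⟩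
    · exact Or.inr fun b hb hb' => hl.inn h2 hb hb'
  · exact Or.inr fun b hb hb' => (h ⟨b, hb, hb'⟩).elim

/-- the triangle `σ` (missing `p`) leaves the line through its edge `q s` at `pt q r l` -/
def Frame.Ed (Φ : Frame S) (σ : Fin 4 → ι) (p q r s : Fin 4) (l : ℝ) : Prop :=
  S.InC σ (fun i => i = q ∨ i = s) (Φ.pt q r l) ∧
    ∀ θ, θ ≤ l → S.InC σ (fun i => i ≠ p) (Φ.pt q r θ)

theorem Frame.ed (Φ : Frame S) {p q r s : Fin 4} (h : Dis p q r s) {σ : Fin 4 → ι} (hσ : S.Rb σ)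
    (hz : ∀ i, i ≠ p → Φ.φ p (S.V (σ i)) = 0) : ∃ l, Φ.Ed σ p q r s l := by
  obtain ⟨τ, ψ, l, hl⟩ := Φ.lf q r (fun x => ∃ i, x = σ i)
    (by rintro x ⟨i, rfl⟩; exact (hσ i).1) hσ fun i _ => ⟨i, rfl⟩
  have hτ : ∀ i, i ≠ r → τ i = σ i := by
    intro i hi
    obtain ⟨k, hk⟩ := hl.2.1 i hi
    by_cases e : i = k
    · rw [hk, e]
    · exact (hl.1.ne hσ e hk).elim
  have hp : ∀ θ, Φ.φ p (Φ.pt q r θ) = 0 := fun θ => by rw [Φ.pt_app θ h.2.1, if_neg h.1]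
  refine ⟨l, InC.mono (InC.drop (InC.congr hl.on hτ) (Φ.pos hσ p).ne' (fun i _ hi => hz i hi)
    (hp l)) fun i hi => ?_, fun θ hθ => InC.mono (InC.drop (hl.inn hθ hσ fun i _ => ⟨i, rfl⟩)
    (Φ.pos hσ p).ne' (fun i _ hi => hz i hi) (hp θ)) fun i hi => hi.2⟩
  rcases h.all i with e | e | e | e
  · exact (hi.2 e).elim
  · exact Or.inl e
  · exact (hi.1 e).elim
  · exact Or.inr e

end Pool.Agent.P.MP_daa8d5_co.An
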