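import Pool.Agent.P.MP_daa8d5_co.An.Left

set_option autoImplicit false

namespace Pool.Agent.P.MP_daa8d5_co.An

open Finset

variable {ι F : Type} [AddCommGroup F] [Module ℝ F] {S : Sys ι F} {Φ : Frame S}

/-- the points outside the two triangles -/
def Sys.Pl (S : Sys ι F) (P : Fin 4 → ι) (p : Fin 4) (T : Fin 4 → ι) (s : Fin 4) (x : ι) : Prop :=
  x ∈ S.X ∧ (∀ i, i ≠ p → x ≠ P i) ∧ ∀ i, i ≠ s → x ≠ T i

theorem pl_comm (P : Fin 4 → ι) (p : Fin 4) (T : Fin 4 → ι) (s : Fin 4) :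
    S.Pl P p T s = S.Pl T s P p := by
  funext x
  exact propext ⟨fun h => ⟨h.1, h.2.2, h.2.1⟩, fun h => ⟨h.1, h.2.2, h.2.1⟩⟩

theorem avoid {a b : Fin 4 → ι} (ha : S.Rb a) (hb : S.Rb b) {i j : Fin 4}
    (h : i ≠ j → b i ≠ a i) : ∀ k, k ≠ j → b i ≠ a k := by
  intro k hk
  by_cases e : i = k
  · subst e; exact h hk
  · exact hb.ne ha e

theorem pl_of {P T b : Fin 4 → ι} {p s i : Fin 4} (hP : S.Rb P) (hT : S.Rb T) (hb : S.Rb b)
    (h1 : i ≠ p → b i ≠ P i) (h2 : i ≠ s → b i ≠ T i) : S.Pl P p T s (b i) :=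
  ⟨(hb i).1, avoid hP hb h1, avoid hT hb h2⟩

theorem rb_update {a : Fin 4 → ι} (ha : S.Rb a) {i : Fin 4} {x : ι} (hx : x ∈ S.X)
    (hc : S.cl x = i) : S.Rb (Function.update a i x) := by
  intro k
  by_cases e : k = i
  · subst e; rw [Function.update_self]; exact ⟨hx, hc⟩
  · rw [Function.update_of_ne e]; exact ha k

theorem case3a {p q r s : Fin 4} (h : Dis p q r s) {P T D : Fin 4 → ι} (hP : S.Rb P)
    (hT : S.Rb T) (n1 : P q ≠ T q) (n2 : P r ≠ T r) {l ρ : ℝ} {ψ : F →ₗ[ℝ] ℝ}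
    (h1 : S.InC T (fun i => i = q ∨ i = p) (Φ.pt q r l))
    (h3 : S.InC P (fun i => i ≠ p) (Φ.pt q r l)) (h4 : S.InC P (fun i => i ≠ p) (Φ.pt r q ρ))
    (hD : Φ.Lf r q (fun x => S.Pl P p T s x ∨ x = T r) D ψ ρ)
    (hin : ∀ b, S.Rb b → (∀ i, i ≠ r → S.Pl P p T s (b i) ∧ ∀ k, k ≠ q → b i ≠ D k) →
      S.InC b (fun _ => True) (Φ.pt q r l)) : S.Conf := by
  have hall := h.all
  obtain ⟨d1, d2, d3, d4, d5, d6⟩ := id h
  refine conf3 h (Φ.pt_ne d4 l) (Φ.pt_ne d4.symm ρ) hP hT hD.1 n1 ?_ ?_ ?_ h1 hD.on h3 h4 ?_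
  · rcases hD.2.1 p d1 with e | e
    · exact e.2.2 p d3
    · exact (hD.1.ne hT d2 e).elim
  · rcases hD.2.1 r d4.symm with e | e
    · exact e.2.1 r d2.symm
    · rw [e]; exact n2.symm
  · rcases hD.2.1 s d5.symm with e | e
    · exact e.2.1 s d3.symm
    · exact (hD.1.ne hT d6.symm e).elim
  · intro b hb e1 e2 e3 e4
    refine ⟨hin b hb fun i hi => ⟨pl_of hP hT hb (e1 i) fun hs => ?_, avoid hD.1 hb (e4 i)⟩,
      hD.inn le_rfl hb fun i hi => ?_⟩
    · rcases hall i with rfl | rfl | rfl | rfl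
      · exact e3
      · exact e2
      · exact (hi rfl).elim
      · exact (hs rfl).elim
    · by_cases e : b i = T r
      · exact Or.inr e
      · refine Or.inl (pl_of hP hT hb (e1 i) fun hs => ?_)
        rcases hall i with rfl | rfl | rfl | rfl
        · exact e3
        · exact e2
        · exact e
        · exact (hs rfl).elim

theorem case1 {p q r s : Fin 4} (h : Dis p q r s) {P T D : Fin 4 → ι} (hP : S.Rb P)
    (hT : S.Rb T) (n1 : P q ≠ T q) (n2 : P r ≠ T r) {lp ls mp ms ρ : ℝ} {ψ : F →ₗ[ℝ] ℝ}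
    (eLp : Φ.Ed P p q r s lp) (eLs : Φ.Ed T s q r p ls) (eRp : Φ.Ed P p r q s mp)
    (eRs : Φ.Ed T s r q p ms) (hl : ls ≤ lp) (hD : Φ.Lf r q (S.Pl P p T s) D ψ ρ) (h1 : ρ ≤ mp)
    (h2 : ρ ≤ ms) : S.Conf := by
  have hall := h.all
  obtain ⟨d1, d2, d3, d4, d5, d6⟩ := id h
  rcases Φ.left_or q r (fun x => S.Pl P p T s x ∧ ∀ k, k ≠ q → x ≠ D k) (fun x hx => hx.1.1) ls
    with ⟨C, χ, l, hC, hl'⟩ | hin
  · refine conf4 h (Φ.pt_ne d4 l) (Φ.pt_ne d4.symm ρ) hP hT hC.1 hD.1 n1 n2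
      (fun i e e' => (hC.2.1 i e).1.2.1 i e') (fun i e e' => (hC.2.1 i e).1.2.2 i e')
      (fun i e e' => (hD.2.1 i e).2.1 i e') (fun i e e' => (hD.2.1 i e).2.2 i e')
      (fun i e e' => (hC.2.1 i e).2 i e') hC.on hD.on (eLp.2 l (hl'.trans hl)) (eRp.2 ρ h1)
      (eLs.2 l hl') (eRs.2 ρ h2) ?_
    intro b hb e1 e2 _ e4
    exact ⟨hC.inn le_rfl hb fun i _ => ⟨pl_of hP hT hb (e1 i) (e2 i), avoid hD.1 hb (e4 i)⟩,
      hD.inn le_rfl hb fun i _ => pl_of hP hT hb (e1 i) (e2 i)⟩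
  by_cases hσ : ψ (S.V (T r)) ≤ 0
  · refine case3a h hP hT n1 n2 eLs.1 (eLp.2 ls hl) (eRp.2 ρ h1) (D := D) (ψ := ψ)
      ⟨hD.1, fun i hi => Or.inl (hD.2.1 i hi), ⟨hD.2.2.1.1, ?_⟩, hD.2.2.2⟩ hin
    rintro x (hx | rfl) hc
    · exact hD.2.2.1.2 x hx hc
    · exact hσ
  push Not at hσ
  let D' := Function.update D r (T r)
  have g1 : S.Rb D' := rb_update hD.1 (hT r).1 (hT r).2
  have g2 : D' r = T r := Function.update_self _ _ _
  have g3 : ∀ i, i ≠ r → D' i = D i := fun i hi => Function.update_of_ne hi _ _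
  obtain ⟨τ, ψ', ρ', hτ⟩ := Φ.lf r q (fun x => ∃ i, x = D' i)
    (by rintro x ⟨i, rfl⟩; exact (g1 i).1) g1 fun i _ => ⟨i, rfl⟩
  have g4 : S.InC D' (fun i => i ≠ q) (Φ.pt r q ρ') := by
    refine InC.congr hτ.on fun i hi => ?_
    obtain ⟨k, hk⟩ := hτ.2.1 i hi
    by_cases e : i = k
    · rw [hk, e]
    · exact (hτ.1.ne g1 e hk).elim
  have g5 : ρ' ≤ ρ := by
    obtain ⟨c, c0, c1, c2⟩ := g4
    have e1 : 0 ≤ ψ (Φ.pt r q ρ') := by
      rw [c2, app_sum]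
      refine sum_nonneg fun i _ => ?_
      by_cases e : i = q
      · rw [c1 i (by simpa using e), zero_mul]
      by_cases e' : i = r
      · rw [e', g2]; exact mul_nonneg (c0 r) hσ.le
      · rw [g3 i e', hD.2.2.2.1 i e, mul_zero]
    rw [hD.app] at e1
    exact sub_nonneg.1 (nonneg_of_mul_nonneg_left e1 hD.2.2.2.2.1)
  refine conf3 h (Φ.pt_ne d4 ls) (Φ.pt_ne d4.symm ρ') hP hT g1 n1 ?_ ?_ ?_ eLs.1 g4
    (eLp.2 ls hl) (eRp.2 ρ' (g5.trans h1)) ?_
  · rw [g3 p d2]; exact (hD.2.1 p d1).2.2 p d3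
  · rw [g2]; exact n2.symm
  · rw [g3 s d6.symm]; exact (hD.2.1 s d5.symm).2.1 s d3.symm
  · intro b hb e1 e2 e3 e4
    have e5 : ∀ i, S.Pl P p T s (b i) := by
      intro i
      refine pl_of hP hT hb (e1 i) fun hs => ?_
      rcases hall i with rfl | rfl | rfl | rfl
      · exact e3
      · exact e2
      · rw [← g2]; exact e4 _ d4.symm
      · exact (hs rfl).elim
    exact ⟨hin b hb fun i hi => ⟨e5 i, avoid hD.1 hb fun hq => g3 i hi ▸ e4 i hq⟩,
      hD.inn g5 hb fun i _ => e5 i⟩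

theorem case1' {p q r s : Fin 4} (h : Dis p q r s) {P T D : Fin 4 → ι} (hP : S.Rb P)
    (hT : S.Rb T) (n1 : P q ≠ T q) (n2 : P r ≠ T r) {lp ls mp ms ρ : ℝ} {ψ : F →ₗ[ℝ] ℝ}
    (eLp : Φ.Ed P p q r s lp) (eLs : Φ.Ed T s q r p ls) (eRp : Φ.Ed P p r q s mp)
    (eRs : Φ.Ed T s r q p ms) (hD : Φ.Lf r q (S.Pl P p T s) D ψ ρ) (h1 : ρ ≤ mp)
    (h2 : ρ ≤ ms) : S.Conf := by
  rcases le_total ls lp with hl | hl
  · exact case1 h hP hT n1 n2 eLp eLs eRp eRs hl hD h1 h2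
  · exact case1 h.ps hT hP n1.symm n2.symm eLs eLp eRs eRp hl (pl_comm (S := S) P p T s ▸ hD) h2 h1

theorem start (hk : ∀ i x, ∃ y ∈ S.X, S.cl y = i ∧ y ≠ x) {p q r s : Fin 4} (h : Dis p q r s)
    {P T U : Fin 4 → ι} (hP : S.Rb P) (hT : S.Rb T) (hU : S.Rb U) :
    ∃ a, S.Rb a ∧ ∀ i, i ≠ q → S.Pl P p T s (a i) ∨ a i = U r := by
  obtain ⟨d1, d2, d3, d4, d5, d6⟩ := id h
  obtain ⟨x, x1, x2, x3⟩ := hk p (T p)
  obtain ⟨y, y1, y2, y3⟩ := hk s (P s)
  have g := rb_update (rb_update hU x1 x2) y1 y2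
  refine ⟨_, g, fun i hi => ?_⟩
  rcases h.all i with rfl | rfl | rfl | rfl
  · refine Or.inl (pl_of hP hT g (fun e => (e rfl).elim) fun _ => ?_)
    rwa [Function.update_of_ne d3, Function.update_self]
  · exact (hi rfl).elim
  · right
    rw [Function.update_of_ne d6, Function.update_of_ne d2.symm]
  · refine Or.inl (pl_of hP hT g (fun _ => ?_) fun e => (e rfl).elim)
    rwa [Function.update_self]

theorem pos_of_edge {T : Fin 4 → ι} {p q : Fin 4} {y : F} {ψ : F →ₗ[ℝ] ℝ}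
    (h : S.InC T (fun i => i = q ∨ i = p) y) (hy : 0 < ψ y) (hq : ψ (S.V (T q)) ≤ 0) :
    0 ≤ ψ (S.V (T p)) := by
  by_contra hn
  push Not at hn
  obtain ⟨c, c0, c1, c2⟩ := h
  have : ψ y ≤ 0 := by
    rw [c2, app_sum]
    refine sum_nonpos fun i _ => ?_
    by_cases e : i = q ∨ i = p
    · rcases e with rfl | rfl
      · exact mul_nonpos_of_nonneg_of_nonpos (c0 _) hq
      · exact mul_nonpos_of_nonneg_of_nonpos (c0 _) hn.le
    · rw [c1 i e, zero_mul]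
  linarith

theorem inC_self (a : Fin 4 → ι) (p : Fin 4) : S.InC a (fun i => i = p) (S.V (a p)) := by
  refine ⟨Pi.single p 1, fun i => ?_, fun i hi => Pi.single_eq_of_ne hi _, ?_⟩
  · by_cases e : i = p
    · rw [e, Pi.single_eq_same]; norm_num
    · rw [Pi.single_eq_of_ne e]
  · rw [sum_eq_single p, Pi.single_eq_same, one_smul]
    · intro i _ hi; rw [Pi.single_eq_of_ne hi, zero_smul]
    · intro h; exact (h (mem_univ _)).elim

theorem e_tri {P : Fin 4 → ι} (hP : S.Rb P) {p q : Fin 4} (h : p ≠ q)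
    (zP : ∀ i, i ≠ p → Φ.φ p (S.V (P i)) = 0) : S.InC P (fun i => ¬ i = p) (Φ.e q) :=
  InC.mono (InC.drop (Φ.e_in hP q) (Φ.pos hP p).ne' (fun i _ hi => zP i hi)
    (by rw [Φ.dual, if_neg h])) fun _ hi => hi.2

theorem e_ne (k : Fin 4) : Φ.e k ≠ 0 := by
  intro h0
  have := Φ.dual k k
  rw [h0] at this
  simp at this

theorem case3 (hk : ∀ i x, ∃ y ∈ S.X, S.cl y = i ∧ y ≠ x) {p q r s : Fin 4} (h : Dis p q r s)
    {P T : Fin 4 → ι} (hP : S.Rb P) (hT : S.Rb T) (zP : ∀ i, i ≠ p → Φ.φ p (S.V (P i)) = 0)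
    (zT : ∀ i, i ≠ s → Φ.φ s (S.V (T i)) = 0) (n1 : P q ≠ T q) (n2 : P r ≠ T r)
    {lp ls mp ms : ℝ} (eLp : Φ.Ed P p q r s lp) (eLs : Φ.Ed T s q r p ls)
    (eRp : Φ.Ed P p r q s mp) (eRs : Φ.Ed T s r q p ms) (hl : ls ≤ lp)
    (hL : ∀ b, S.Rb b → (∀ i, i ≠ r → S.Pl P p T s (b i)) →
      S.InC b (fun _ => True) (Φ.pt q r (min lp ls)))
    (hR : ∀ b, S.Rb b → (∀ i, i ≠ q → S.Pl P p T s (b i)) →
      S.InC b (fun _ => True) (Φ.pt r q (min mp ms))) : S.Conf := by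
  have hall := h.all
  obtain ⟨d1, d2, d3, d4, d5, d6⟩ := id h
  rw [min_eq_right hl] at hL
  have hX : ∀ U : Fin 4 → ι, S.Rb U → ∀ k x, (S.Pl P p T s x ∨ x = U k) → x ∈ S.X := by
    rintro U hU k x (hx | rfl)
    · exact hx.1
    · exact (hU k).1
  obtain ⟨a, a1, a2⟩ := start hk h hP hT hT
  obtain ⟨D, ψ, ρ, hD⟩ := Φ.lf r q _ (hX T hT r) a1 a2
  by_cases hρ : ρ ≤ mp ∧ ρ ≤ ms
  · exact case3a h hP hT n1 n2 eLs.1 (eLp.2 ls hl) (eRp.2 ρ hρ.1) hD
      fun b hb e => hL b hb fun i hi => (e i hi).1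
  have memD : ∀ b, S.Rb b → (∀ i, i ≠ p → i ≠ q → b i ≠ P i) → b p ≠ T p →
      ∀ i, i ≠ q → S.Pl P p T s (b i) ∨ b i = T r := by
    intro b hb e1 e2 i hi
    by_cases e : b i = T r
    · exact Or.inr e
    · refine Or.inl (pl_of hP hT hb (fun hp => e1 i hp hi) fun hs => ?_)
      rcases hall i with rfl | rfl | rfl | rfl
      · exact e2
      · exact (hi rfl).elim
      · exact e
      · exact (hs rfl).elim
  rcases le_total ms mp with hm | hm
  · rw [min_eq_right hm] at hR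
    have hρ' : ms < ρ := by
      by_contra hn
      push Not at hn
      exact hρ ⟨hn.trans hm, hn⟩
    obtain ⟨a', a1', a2'⟩ := start hk h.qr hP hT hT
    obtain ⟨C, χ, l, hC⟩ := Φ.lf q r _ (hX T hT q) a1' a2'
    rcases le_or_gt l ls with hl' | hl'
    · exact case3a h.qr hP hT n2 n1 eRs.1 (eRp.2 ms hm) (eLp.2 l (hl'.trans hl)) hC
        fun b hb e => hR b hb fun i hi => (e i hi).1
    refine conf2 (fun i => i = p) (α := S.V (T p)) (β := Φ.e q) ?_ (e_ne q) hT hP (inC_self T p)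
      (e_tri hP d1 zP) fun b hb e1 e2 => ⟨?_, Φ.e_in hb q⟩
    · intro h0
      have := Φ.pos hT p
      rw [h0, map_zero] at this
      exact lt_irrefl _ this
    have k1 : 0 ≤ χ (S.V (T p)) := by
      refine pos_of_edge eLs.1 ?_ (hC.2.2.1.2 _ (Or.inr rfl) (by rw [(hT q).2]; exact d4))
      rw [hC.app]
      exact mul_pos (sub_pos.2 hl') hC.2.2.2.2.1
    have k2 : 0 ≤ ψ (S.V (T p)) := by
      refine pos_of_edge eRs.1 ?_ (hD.2.2.1.2 _ (Or.inr rfl) (by rw [(hT r).2]; exact d4.symm))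
      rw [hD.app]
      exact mul_pos (sub_pos.2 hρ') hD.2.2.2.2.1
    have k3 := memD b hb (fun i hi _ => e2 i hi) (e1 p rfl)
    have k4 : ∀ i, i ≠ r → S.Pl P p T s (b i) ∨ b i = T q := by
      intro i hi
      by_cases e : b i = T q
      · exact Or.inr e
      · refine Or.inl (pl_of hP hT hb (e2 i) fun hs => ?_)
        rcases hall i with rfl | rfl | rfl | rfl
        · exact e1 _ rfl
        · exact e
        · exact (hi rfl).elim
        · exact (hs rfl).elim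
    refine lemM hb (Function.update (Function.update Φ.φ r χ) q ψ) (fun j => ?_)
      (fun j i hi => ?_) fun j => ?_
    all_goals
      by_cases hj : j = q
      · subst hj
        rw [Function.update_self]
        first
        | exact hD.2.2.1.1
        | exact hD.2.2.1.2 _ (k3 i hi) (by rw [(hb i).2]; exact hi)
        | exact k2
      rw [Function.update_of_ne hj]
      by_cases hj' : j = r
      · subst hj'
        rw [Function.update_self]
        first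
        | exact hC.2.2.1.1
        | exact hC.2.2.1.2 _ (k4 i hi) (by rw [(hb i).2]; exact hi)
        | exact k1
      rw [Function.update_of_ne hj']
    · exact (Φ.val j).1
    · exact Φ.sgn hb j i hi
    · rcases hall j with rfl | rfl | rfl | rfl
      · exact (Φ.pos hT _).le
      · exact (hj rfl).elim
      · exact (hj' rfl).elim
      · exact (zT p d3).ge
  · rw [min_eq_left hm] at hR
    have hρ' : mp ≤ ρ := by
      by_contra hn
      push Not at hn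
      exact hρ ⟨hn.le, hn.le.trans hm⟩
    obtain ⟨a', a1', a2'⟩ := start hk h.qr hP hT hP
    obtain ⟨C, χ, l, hC⟩ := Φ.lf q r _ (hX P hP q) a1' a2'
    rcases le_total l ls with hl' | hl'
    · exact case3a h.ps.qr hT hP n2.symm n1.symm eRp.1 (eRs.2 mp hm) (eLs.2 l hl')
        (pl_comm (S := S) P p T s ▸ hC)
        fun b hb e => hR b hb fun i hi => pl_comm (S := S) T s P p ▸ (e i hi).1
    refine conf2 (fun i => i = q ∨ i = p) (Φ.pt_ne d4 ls) (Φ.pt_ne d4.symm mp) hT hP eLs.1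
      (InC.mono eRp.1 ?_) fun b hb e1 e2 => ⟨hC.inn hl' hb fun i hi => ?_, hD.inn hρ' hb ?_⟩
    · rintro i (rfl | rfl) (e | e)
      · exact d4 e.symm
      · exact d2 e.symm
      · exact d5 e.symm
      · exact d3 e.symm
    · by_cases e : b i = P q
      · exact Or.inr e
      · refine Or.inl (pl_of hP hT hb (fun hp => ?_) fun hs => ?_)
        · rcases hall i with rfl | rfl | rfl | rfl
          · exact (hp rfl).elim
          · exact e
          · exact (hi rfl).elim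
          · exact e2 _ (by rintro (e | e); exacts [d5 e.symm, d3 e.symm])
        · rcases hall i with rfl | rfl | rfl | rfl
          · exact e1 _ (Or.inr rfl)
          · exact e1 _ (Or.inl rfl)
          · exact (hi rfl).elim
          · exact (hs rfl).elim
    · exact memD b hb (fun i hp hq => e2 i (by rintro (e | e); exacts [hq e, hp e]))
        (e1 p (Or.inr rfl))

/-- the line lemma -/
theorem line (hk : ∀ i x, ∃ y ∈ S.X, S.cl y = i ∧ y ≠ x) {p q r s : Fin 4} (h : Dis p q r s)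
    {P T : Fin 4 → ι} (hP : S.Rb P) (hT : S.Rb T) (zP : ∀ i, i ≠ p → Φ.φ p (S.V (P i)) = 0)
    (zT : ∀ i, i ≠ s → Φ.φ s (S.V (T i)) = 0) (n1 : P q ≠ T q) (n2 : P r ≠ T r) : S.Conf := by
  obtain ⟨lp, eLp⟩ := Φ.ed h hP zP
  obtain ⟨ls, eLs⟩ := Φ.ed h.ps hT zT
  obtain ⟨mp, eRp⟩ := Φ.ed h.qr hP zP
  obtain ⟨ms, eRs⟩ := Φ.ed h.ps.qr hT zT
  rcases Φ.left_or r q (S.Pl P p T s) (fun x hx => hx.1) (min mp ms) with ⟨D, ψ, ρ, hD, h1⟩ | hR
  · exact case1' h hP hT n1 n2 eLp eLs eRp eRs hD (h1.trans (min_le_left _ _))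
      (h1.trans (min_le_right _ _))
  rcases Φ.left_or q r (S.Pl P p T s) (fun x hx => hx.1) (min lp ls) with ⟨C, ψ, l, hC, h1⟩ | hL
  · exact case1' h.qr hP hT n2 n1 eRp eRs eLp eLs hC (h1.trans (min_le_left _ _))
      (h1.trans (min_le_right _ _))
  rcases le_total ls lp with hl | hl
  · exact case3 hk h hP hT zP zT n1 n2 eLp eLs eRp eRs hl hL hR
  · exact case3 hk h.ps hT hP zT zP n1.symm n2.symm eLs eLp eRs eRp hl
      (by rw [min_comm, ← pl_comm]; exact hL) (by rw [min_comm, ← pl_comm]; exact hR)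

end Pool.Agent.P.MP_daa8d5_co.An
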