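import Pool.Agent.P.MP_daa8d5_co.An.Mk

set_option autoImplicit false

namespace Pool.Agent.P.MP_daa8d5_co.An

open Finset

abbrev E3 : Type := EuclideanSpace ℝ (Fin 3)

/-- Helly: four hulls of large subsets without a common point. -/
theorem four {m : ℕ} (S : Finset E3)
    (h : ∀ z : E3, ∃ v : E3, {x | x ∈ S ∧ inner ℝ v z ≤ inner ℝ v x}.ncard < m) :
    ∃ K : Fin 4 → Finset E3, (∀ j, (K j).card < m) ∧
      ∀ z, ¬ ∀ j, z ∈ convexHull ℝ {x | x ∈ S ∧ x ∉ K j} := by
  classical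
  by_contra hn
  push Not at hn
  obtain ⟨z, hz⟩ := Convex.helly_theorem' (𝕜 := ℝ)
    (F := fun K : Finset E3 => convexHull ℝ {x | x ∈ S ∧ x ∉ K})
    (s := S.powerset.filter fun K => K.card < m) (fun _ _ => convex_convexHull ℝ _) (by
      intro I hI hc
      rcases I.eq_empty_or_nonempty with rfl | hne
      · exact ⟨0, by simp⟩
      have : Nonempty I := hne.to_subtype
      obtain ⟨e⟩ : Nonempty (I ↪ Fin 4) :=
        Function.Embedding.nonempty_of_card_le (by simpa using hc)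
      obtain ⟨z, hz⟩ := hn (fun j => (Function.invFun e j : I))
        fun j => (mem_filter.1 (hI (Function.invFun e j).2)).2
      refine ⟨z, Set.mem_iInter₂.2 fun K hK => ?_⟩
      have := hz (e ⟨K, hK⟩)
      rwa [Function.leftInverse_invFun e.injective] at this)
  obtain ⟨v, hv⟩ := h z
  have hK : (S.filter fun x => inner ℝ v z ≤ inner ℝ v x).card < m := by
    rwa [← Set.ncard_coe_finset, coe_filter]
  have h2 := Set.mem_iInter₂.1 hz _
    (mem_filter.2 ⟨mem_powerset.2 (filter_subset _ _), hK⟩)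
  have h3 : z ∈ {x : E3 | innerₗ E3 v x < inner ℝ v z} :=
    convexHull_min (fun x hx => by
      have := hx.2
      rw [mem_filter, not_and, not_le] at this
      exact this hx.1) (convex_halfSpace_lt (innerₗ E3 v).isLinear _) h2
  exact lt_irrefl (inner ℝ v z) h3

/-- separation of the product of the hulls from the diagonal -/
theorem sep (A : Fin 4 → Set E3) (hf : ∀ j, (A j).Finite) (hne : ∀ j, (A j).Nonempty)
    (h : ∀ z, ¬ ∀ j, z ∈ convexHull ℝ (A j)) :
    ∃ g : Fin 4 → (E3 × ℝ) →ₗ[ℝ] ℝ, (∀ j, ∀ x ∈ A j, g j (x, 1) ≤ 0) ∧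
      ∀ x, 0 < ∑ j, g j (x, 1) := by
  let D : E3 →ₗ[ℝ] (Fin 4 → E3) := LinearMap.pi fun _ => LinearMap.id
  obtain ⟨f, u, w, h1, h2, h3⟩ := geometric_hahn_banach_compact_closed
    (s := Set.univ.pi fun j => convexHull ℝ (A j)) (t := (LinearMap.range D : Set (Fin 4 → E3)))
    (convex_pi fun j _ => convex_convexHull ℝ _)
    (isCompact_univ_pi fun j => (hf j).isCompact_convexHull ℝ)
    (LinearMap.range D).convex (LinearMap.range D).closed_of_finiteDimensional
    (Set.disjoint_left.2 (by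
      rintro _ ha ⟨z, rfl⟩
      exact h z fun j => ha j trivial))
  have hw : w < 0 := by simpa using h3 0 (zero_mem _)
  have hD : ∀ z, f (D z) = 0 := by
    intro z
    by_contra hz
    have := h3 (D ((w / f (D z)) • z)) ⟨_, rfl⟩
    rw [map_smul, map_smul, smul_eq_mul, div_mul_cancel₀ _ hz] at this
    exact lt_irrefl _ this
  let φ : Fin 4 → E3 →ₗ[ℝ] ℝ := fun j =>
    (f : (Fin 4 → E3) →ₗ[ℝ] ℝ) ∘ₗ LinearMap.single ℝ (fun _ => E3) j
  have hs : ∀ a : Fin 4 → E3, ∑ j, φ j (a j) = f a := by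
    intro a
    conv_rhs => rw [← Finset.univ_sum_single a, map_sum]
    rfl
  choose a ha hmax using fun j => Set.exists_max_image (A j) (φ j) (hf j) (hne j)
  have hM := h1 a fun j _ => subset_convexHull ℝ _ (ha j)
  refine ⟨fun j => (φ j).coprod (-(φ j (a j)) • LinearMap.id), fun j x hx => ?_, fun x => ?_⟩
  · simpa using hmax j x hx
  · have e1 := hs (D x)
    have e2 := hs a
    rw [hD] at e1
    have e3 : ∑ j, φ j x = 0 := e1
    simp only [LinearMap.coprod_apply, LinearMap.smul_apply, LinearMap.id_apply, smul_eq_mul,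
      mul_one, sum_add_distrib, sum_neg_distrib]
    linarith

/-- from cones to hulls -/
theorem hull {S : Sys E3 (E3 × ℝ)} (hV : S.V = fun x => (x, 1)) {m : ℕ} {col : E3 → Fin m}
    {n : Fin m} {y : E3 × ℝ} (hy : y ≠ 0) (h : S.Cn col n y) :
    y.2⁻¹ • y.1 ∈ convexHull ℝ {x | x ∈ S.X ∧ col x = n} := by
  classical
  obtain ⟨a, J, hJ, c, c0, c1, rfl⟩ := h
  have f1 : ∑ i ∈ univ.filter J, c i = (∑ i, c i • S.V (a i)).2 := by
    rw [sum_filter_of_ne fun i _ hi => by_contra fun hn => hi (c1 i hn)]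
    simp [hV, Prod.snd_sum]
  have f2 : ∑ i ∈ univ.filter J, c i • a i = (∑ i, c i • S.V (a i)).1 := by
    rw [sum_filter_of_ne fun i _ hi => by_contra fun hn => hi (by rw [c1 i hn, zero_smul])]
    simp [hV, Prod.fst_sum]
  rw [← f1, ← f2]
  refine centerMass_mem_convexHull _ (fun i _ => c0 i) ?_ fun i hi => hJ i (mem_filter.1 hi).2
  refine (sum_nonneg fun i _ => c0 i).lt_of_ne fun h0 => hy (sum_eq_zero fun i _ => ?_)
  by_cases hi : J i
  · rw [(sum_eq_zero_iff_of_nonneg fun i _ => c0 i).1 h0.symm i (mem_filter.2 ⟨mem_univ _, hi⟩),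
      zero_smul]
  · rw [c1 i hi, zero_smul]

theorem main (m : ℕ) (hm : 3 ≤ m) (S : Finset E3) (hS : S.card = 4 * (m - 1))
    (h : ∀ z : E3, ∃ v : E3, {x | x ∈ S ∧ inner ℝ v z ≤ inner ℝ v x}.ncard < m) :
    ∃ c : E3 → Fin m, ∃ T : Finset (Fin m), T.card = m - 2 ∧
      ∀ j : Fin m, ∃ y ∈ convexHull ℝ {x : E3 | x ∈ S ∧ c x = j},
        ∀ i ∈ T, y ∈ convexHull ℝ {x : E3 | x ∈ S ∧ c x = i} := by
  classical
  obtain ⟨K, hK, hz⟩ := four S h
  obtain ⟨g, g1, g2⟩ := sep (fun j => {x | x ∈ S ∧ x ∉ K j})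
    (fun j => S.finite_toSet.subset fun x hx => hx.1) (fun j => by
      obtain ⟨x, hx⟩ := exists_mem_notMem_of_card_lt_card (s := K j) (t := S)
        (by have := hK j; omega)
      exact ⟨x, hx⟩) hz
  have hcl : ∀ x : E3, ∃ j, 0 < g j (x, 1) := fun x => by
    by_contra hn
    push Not at hn
    exact absurd (sum_nonpos fun j _ => hn j) (not_le.2 (g2 x))
  choose cl hcl using hcl
  have hsub : ∀ j, (S.filter fun x => cl x = j) ⊆ K j := by
    intro j x hx
    obtain ⟨h1, rfl⟩ := mem_filter.1 hx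
    by_contra hn
    exact absurd (g1 _ x ⟨h1, hn⟩) (not_le.2 (hcl x))
  have hcard : ∀ j, (S.filter fun x => cl x = j).card + 1 = m := by
    have e := card_eq_sum_card_fiberwise (s := S) (t := univ) (f := cl) fun _ _ => mem_univ _
    rw [Fin.sum_univ_four] at e
    have l := fun j => (card_le_card (hsub j)).trans_lt (hK j)
    have l0 := l 0
    have l1 := l 1
    have l2 := l 2
    have l3 := l 3
    intro j
    fin_cases j <;> simp only [Fin.zero_eta, Fin.mk_one, Fin.reduceFinMk] <;> omega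
  have hsgn : ∀ j, ∀ x ∈ S, cl x ≠ j → g j (x, 1) ≤ 0 := by
    intro j x hx hj
    refine g1 j x ⟨hx, fun hk => hj ?_⟩
    rw [← eq_of_subset_of_card_le (hsub j) (by have := hK j; have := hcard j; omega)] at hk
    exact (mem_filter.1 hk).2
  have hk : ∀ i x, ∃ y ∈ S, cl y = i ∧ y ≠ x := by
    intro i x
    obtain ⟨y, hy, hne⟩ := exists_mem_ne (s := S.filter fun x => cl x = i)
      (by have := hcard i; omega) x
    exact ⟨y, (mem_filter.1 hy).1, (mem_filter.1 hy).2, hne⟩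
  choose a0 a1 a2 _ using fun i => hk i 0
  obtain ⟨Y, rfl, rfl, hV⟩ := mk_sys (F := E3 × ℝ) (by simp) S cl (fun x => (x, 1)) g hsgn
    (fun x _ => g2 x) fun i => ⟨a1 i, a2 i⟩
  obtain ⟨col, C, D, α, β, hCD, hα, hβ, hC, hD, hn⟩ :=
    asm hcard (conf hk (a0 := a0) fun i => ⟨a1 i, a2 i⟩)
  have hT : ∀ i ∈ (univ.erase C).erase D, i ≠ C ∧ i ≠ D := fun i hi =>
    ⟨(mem_erase.1 (mem_erase.1 hi).2).1, (mem_erase.1 hi).1⟩
  refine ⟨col, (univ.erase C).erase D, ?_, fun j => ?_⟩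
  · rw [card_erase_of_mem (mem_erase.2 ⟨hCD.symm, mem_univ _⟩), card_erase_of_mem (mem_univ _)]
    simp
    omega
  by_cases hj : j = D
  · exact ⟨_, hull hV hβ (hj ▸ hD), fun i hi => hull hV hβ (hn i (hT i hi).1 (hT i hi).2).2⟩
  refine ⟨_, hull hV hα ?_, fun i hi => hull hV hα (hn i (hT i hi).1 (hT i hi).2).1⟩
  by_cases hj' : j = C
  · exact hj' ▸ hC
  · exact (hn j hj' hj).1

end Pool.Agent.P.MP_daa8d5_co.An
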