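import Pool.Agent.P.MP_daa8d5_co.An.Asm

set_option autoImplicit false

namespace Pool.Agent.P.MP_daa8d5_co.An

open Finset

/-- Z-lemma: nonpositive off the diagonal, positive column sums. -/
theorem zlem (A : Fin 4 → Fin 4 → ℝ) (h1 : ∀ j i, i ≠ j → A j i ≤ 0) (h2 : ∀ i, 0 < ∑ j, A j i)
    (b : Fin 4 → ℝ) (hb : ∀ j, 0 ≤ ∑ i, b i * A j i) (k : Fin 4) : 0 ≤ b k := by
  by_contra hk
  push Not at hk
  have e1 : ∀ j, 0 ≤ ∑ i, min (b i) 0 * A j i := by
    intro j
    by_cases hj : b j < 0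
    · refine (hb j).trans (sum_le_sum fun i _ => ?_)
      by_cases hi : i = j
      · rw [hi, min_eq_left hj.le]
      · exact mul_le_mul_of_nonpos_right (min_le_left _ _) (h1 j i hi)
    · refine sum_nonneg fun i _ => ?_
      by_cases hi : i = j
      · rw [hi, min_eq_right (not_lt.1 hj), zero_mul]
      · exact mul_nonneg_of_nonpos_of_nonpos (min_le_right _ _) (h1 j i hi)
  have e2 : ∑ j, ∑ i, min (b i) 0 * A j i < 0 := by
    rw [sum_comm]
    simp only [← mul_sum]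
    have : ∑ i, min (b i) 0 * ∑ j, A j i < ∑ _i : Fin 4, (0 : ℝ) :=
      sum_lt_sum (fun i _ => mul_nonpos_of_nonpos_of_nonneg (min_le_right _ _) (h2 i).le)
        ⟨k, mem_univ _, mul_neg_of_neg_of_pos ((min_le_left _ _).trans_lt hk) (h2 k)⟩
    simpa using this
  exact absurd (sum_nonneg fun j _ => e1 j) (not_le.2 e2)

variable {ι F : Type} [AddCommGroup F] [Module ℝ F]

/-- four functionals with the sign pattern give a system -/
theorem mk_sys [FiniteDimensional ℝ F] (hF : Module.finrank ℝ F = 4) (X : Finset ι)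
    (cl : ι → Fin 4) (V : ι → F) (g : Fin 4 → F →ₗ[ℝ] ℝ)
    (h1 : ∀ j, ∀ x ∈ X, cl x ≠ j → g j (V x) ≤ 0) (h2 : ∀ x ∈ X, 0 < ∑ j, g j (V x))
    {a0 : Fin 4 → ι} (h0 : ∀ i, a0 i ∈ X ∧ cl (a0 i) = i) :
    ∃ S : Sys ι F, S.X = X ∧ S.cl = cl ∧ S.V = V := by
  have happ : ∀ (a : Fin 4 → ι) (b : Fin 4 → ℝ) (j : Fin 4),
      g j (∑ i, b i • V (a i)) = ∑ i, b i * g j (V (a i)) := fun a b j => by simp [map_sum]
  have hz : ∀ a : Fin 4 → ι, (∀ i, a i ∈ X ∧ cl (a i) = i) → ∀ b : Fin 4 → ℝ,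
      (∀ j, 0 ≤ g j (∑ i, b i • V (a i))) → ∀ k, 0 ≤ b k := fun a ha b hb =>
    zlem (fun j i => g j (V (a i)))
      (fun j i hi => h1 j _ (ha i).1 (by rw [(ha i).2]; exact hi)) (fun i => h2 _ (ha i).1) b
      fun j => by rw [← happ]; exact hb j
  have hz0 : ∀ a : Fin 4 → ι, (∀ i, a i ∈ X ∧ cl (a i) = i) → ∀ b : Fin 4 → ℝ,
      (∀ j, g j (∑ i, b i • V (a i)) = 0) → ∀ k, b k = 0 := by
    intro a ha b hb k
    have p1 := hz a ha b (fun j => (hb j).ge) k
    have p2 := hz a ha (fun i => -b i) (fun j => by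
      have := hb j
      rw [happ] at this ⊢
      simp [this]) k
    linarith
  have hB : ∀ a : Fin 4 → ι, (∀ i, a i ∈ X ∧ cl (a i) = i) →
      ∃ B : Module.Basis (Fin 4) ℝ F, ∀ i, B i = V (a i) := by
    intro a ha
    have li : LinearIndependent ℝ fun i => V (a i) :=
      Fintype.linearIndependent_iff.2 fun b hb => hz0 a ha b fun j => by rw [hb, map_zero]
    exact ⟨basisOfLinearIndependentOfCardEqFinrank li (by simp [hF]), fun i => by simp⟩
  have hrep : ∀ (a : Fin 4 → ι) (B : Module.Basis (Fin 4) ℝ F), (∀ i, B i = V (a i)) →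
      ∀ y, ∑ i, B.repr y i • V (a i) = y := by
    intro a B h y
    conv_rhs => rw [← B.sum_repr y]
    exact sum_congr rfl fun i _ => by rw [h]
  have hinj : Function.Injective (LinearMap.pi g) := by
    obtain ⟨B, hB0⟩ := hB a0 h0
    refine (injective_iff_map_eq_zero _).2 fun y hy => ?_
    have := hz0 a0 h0 (fun i => B.repr y i) fun j => by
      rw [hrep a0 B hB0 y]; exact congrFun hy j
    rw [← hrep a0 B hB0 y]
    simp [this]
  obtain ⟨o, ho⟩ := (LinearMap.injective_iff_surjective_of_finrank_eq_finrank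
    (by simp [hF])).1 hinj fun _ => 1
  have ho' : ∀ j, g j o = 1 := fun j => congrFun ho j
  refine ⟨⟨X, cl, V, o, fun a ha => ?_⟩, rfl, rfl, rfl⟩
  obtain ⟨B, hB1⟩ := hB a ha
  refine ⟨B, hB1, fun k => ?_⟩
  have p := hz a ha (fun i => B.repr o i) fun j => by rw [hrep a B hB1 o, ho']; exact zero_le_one
  refine (p k).lt_of_ne fun hk => ?_
  have q := ho' k
  rw [← hrep a B hB1 o, happ] at q
  have : ∑ i, B.repr o i * g k (V (a i)) ≤ 0 := by
    refine sum_nonpos fun i _ => ?_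
    by_cases hi : i = k
    · rw [hi, ← hk, zero_mul]
    · exact mul_nonpos_of_nonneg_of_nonpos (p i) (h1 k _ (ha i).1 (by rw [(ha i).2]; exact hi))
  linarith

end Pool.Agent.P.MP_daa8d5_co.An
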